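import Mathlib

/-!
The convolution algebra of finitely supported functions on the integers, its `ℓ¹` norm, the uniform
measures `U r` on `{-r, …, r}` and symmetric unimodal elements.
-/

set_option autoImplicit false

namespace Pool.Agent.R248.Ritt

open Finset

/-- Finitely supported real functions on the integers with convolution as product. -/
abbrev A := AddMonoidAlgebra ℝ ℤ

lemma summ (f : A) : Summable fun k => |f.coeff k| :=
  summable_of_ne_finset_zero (s := f.coeff.support) fun _ hk => by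
    rw [Finsupp.notMem_support_iff.1 hk, abs_zero]

lemma summ' (f : A) : Summable fun k => f.coeff k :=
  summable_of_ne_finset_zero (s := f.coeff.support) fun k hk => Finsupp.notMem_support_iff.1 hk

/-- The `ℓ¹` norm. -/
noncomputable def N1 (f : A) : ℝ := ∑' k, |f.coeff k|

lemma N1_nonneg (f : A) : 0 ≤ N1 f := tsum_nonneg fun _ => abs_nonneg _

lemma N1_zero : N1 0 = 0 := by simp [N1]

lemma N1_add_le (f g : A) : N1 (f + g) ≤ N1 f + N1 g := by
  unfold N1
  rw [← (summ f).tsum_add (summ g)]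
  exact (summ _).tsum_le_tsum (fun k => by
    rw [AddMonoidAlgebra.coeff_add]; exact abs_add_le _ _) ((summ f).add (summ g))

lemma N1_sum_le {ι : Type*} (s : Finset ι) (f : ι → A) : N1 (∑ i ∈ s, f i) ≤ ∑ i ∈ s, N1 (f i) := by
  classical
  induction s using Finset.induction_on with
  | empty => simp [N1_zero]
  | insert a s ha ih =>
    rw [sum_insert ha, sum_insert ha]
    exact (N1_add_le _ _).trans (by linarith)

lemma N1_smul (c : ℝ) (f : A) : N1 (c • f) = |c| * N1 f := by
  unfold N1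
  rw [← tsum_mul_left]
  congr 1
  ext k
  rw [AddMonoidAlgebra.coeff_smul_apply, smul_eq_mul, abs_mul]

lemma N1_single_mul (k : ℤ) (a : ℝ) (f : A) :
    N1 (AddMonoidAlgebra.single k a * f) = |a| * N1 f := by
  unfold N1
  rw [← tsum_mul_left, ← (Equiv.addLeft k).tsum_eq]
  congr 1
  ext j
  rw [AddMonoidAlgebra.coeff_single_mul_apply, abs_mul]
  simp

lemma N1_mul_le (f g : A) : N1 (f * g) ≤ N1 f * N1 g := by
  have h : f * g = ∑ k ∈ f.coeff.support, AddMonoidAlgebra.single k (f.coeff k) * g := by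
    conv_lhs => rw [← AddMonoidAlgebra.sum_coeff_single f]
    rw [Finsupp.sum, Finset.sum_mul]
  rw [h]
  refine (N1_sum_le _ _).trans ?_
  simp only [N1_single_mul]
  rw [← Finset.sum_mul]
  refine mul_le_mul_of_nonneg_right ?_ (N1_nonneg g)
  exact (summ f).sum_le_tsum _ fun _ _ => abs_nonneg _

lemma N1_single (k : ℤ) (a : ℝ) : N1 (AddMonoidAlgebra.single k a) = |a| := by
  have h := N1_single_mul k a 1
  rw [mul_one] at h
  rw [h]
  have : N1 (1 : A) = 1 := by
    unfold N1
    rw [tsum_eq_single 0]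
    · rw [AddMonoidAlgebra.one_def]; simp
    · intro j hj
      rw [AddMonoidAlgebra.one_def, AddMonoidAlgebra.coeff_single, Finsupp.single_apply,
        if_neg hj.symm, abs_zero]
  rw [this, mul_one]

lemma N1_one : N1 (1 : A) = 1 := by
  rw [AddMonoidAlgebra.one_def, N1_single, abs_one]

/-- The shift. -/
noncomputable def T (k : ℤ) : A := AddMonoidAlgebra.single k 1

lemma T_zero : T 0 = 1 := rfl

lemma T_mul (j k : ℤ) : T j * T k = T (j + k) := by
  unfold T
  rw [AddMonoidAlgebra.single_mul_single, mul_one]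

lemma coeff_T_mul (j : ℤ) (f : A) (k : ℤ) : (T j * f).coeff k = f.coeff (k - j) := by
  unfold T
  rw [AddMonoidAlgebra.coeff_single_mul_apply, one_mul]
  congr 1
  ring

lemma N1_T (k : ℤ) : N1 (T k) = 1 := by
  unfold T
  rw [N1_single, abs_one]

lemma N1_T_mul (k : ℤ) (f : A) : N1 (T k * f) = N1 f := by
  unfold T
  rw [N1_single_mul, abs_one, one_mul]

lemma N1_neg (f : A) : N1 (-f) = N1 f := by
  unfold N1
  congr 1
  ext k
  rw [AddMonoidAlgebra.coeff_neg, Finsupp.neg_apply, abs_neg]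

/-- The uniform probability on `{-r, …, r}`. -/
noncomputable def U (r : ℕ) : A := ((2 * r + 1 : ℝ))⁻¹ • ∑ i ∈ range (2 * r + 1), T ((i : ℤ) - r)

lemma coeff_U_mul (r : ℕ) (f : A) (k : ℤ) :
    (U r * f).coeff k = ((2 * r + 1 : ℝ))⁻¹ * ∑ i ∈ range (2 * r + 1), f.coeff (k + r - i) := by
  unfold U
  rw [smul_mul_assoc, AddMonoidAlgebra.coeff_smul_apply, smul_eq_mul, Finset.sum_mul,
    AddMonoidAlgebra.coeff_sum, Finsupp.finsetSum_apply]
  congr 1
  refine sum_congr rfl fun i _ => ?_
  rw [coeff_T_mul]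
  congr 1
  ring

lemma N1_U_le (r : ℕ) : N1 (U r) ≤ 1 := by
  unfold U
  rw [N1_smul]
  have h : N1 (∑ i ∈ range (2 * r + 1), T ((i : ℤ) - r)) ≤ 2 * r + 1 := by
    refine (N1_sum_le _ _).trans ?_
    simp [N1_T]
  have h0 : (0:ℝ) < 2 * r + 1 := by positivity
  rw [abs_of_pos (by positivity)]
  calc (2 * (r:ℝ) + 1)⁻¹ * N1 _ ≤ (2 * (r:ℝ) + 1)⁻¹ * (2 * r + 1) :=
        mul_le_mul_of_nonneg_left h (by positivity)
    _ = 1 := inv_mul_cancel₀ h0.ne'

lemma U_zero : U 0 = 1 := by
  unfold U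
  simp [T_zero]

lemma N1_prod_U_le {ι : Type*} (s : Finset ι) (r : ι → ℕ) : N1 (∏ i ∈ s, U (r i)) ≤ 1 := by
  classical
  induction s using Finset.induction_on with
  | empty => simp [N1_one]
  | insert a s ha ih =>
    rw [prod_insert ha]
    refine (N1_mul_le _ _).trans ?_
    exact mul_le_one₀ (N1_U_le _) (N1_nonneg _) ih

/-- Nonnegative, symmetric and unimodal. -/
structure SU (f : A) : Prop where
  nonneg : ∀ k, 0 ≤ f.coeff k
  symm : ∀ k, f.coeff (-k) = f.coeff k
  anti : ∀ k : ℤ, 0 ≤ k → f.coeff (k + 1) ≤ f.coeff k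

lemma SU.nat {f : A} (h : SU f) (k : ℕ) (j : ℕ) : f.coeff ((k + j : ℕ) : ℤ) ≤ f.coeff k := by
  induction j with
  | zero => simp
  | succ j ih =>
    refine le_trans ?_ ih
    have := h.anti ((k + j : ℕ) : ℤ) (by positivity)
    push_cast at this ⊢
    rw [← add_assoc]
    exact this

lemma SU.le {f : A} (h : SU f) {j k : ℤ} (hjk : |j| ≤ |k|) : f.coeff k ≤ f.coeff j := by
  have e : ∀ m : ℤ, f.coeff m = f.coeff (m.natAbs : ℤ) := by
    intro m
    rcases Int.natAbs_eq m with hm | hm
    · rw [← hm]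
    · conv_lhs => rw [hm]
      rw [h.symm]
  rw [e j, e k]
  have h1 : j.natAbs ≤ k.natAbs := by
    rw [Int.abs_eq_natAbs, Int.abs_eq_natAbs] at hjk
    exact_mod_cast hjk
  obtain ⟨d, hd⟩ := Nat.exists_eq_add_of_le h1
  rw [hd]
  exact h.nat _ _

lemma SU_one : SU (1 : A) where
  nonneg k := by
    rw [AddMonoidAlgebra.one_def, AddMonoidAlgebra.coeff_single, Finsupp.single_apply]
    split_ifs <;> norm_num
  symm k := by
    rw [AddMonoidAlgebra.one_def, AddMonoidAlgebra.coeff_single, Finsupp.single_apply,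
      Finsupp.single_apply]
    congr 1
    simp [eq_comm]
  anti k hk := by
    rw [AddMonoidAlgebra.one_def, AddMonoidAlgebra.coeff_single, Finsupp.single_apply,
      Finsupp.single_apply]
    rw [if_neg (by omega)]
    split_ifs <;> norm_num

lemma SU.U_mul {f : A} (h : SU f) (r : ℕ) : SU (U r * f) where
  nonneg k := by
    rw [coeff_U_mul]
    exact mul_nonneg (by positivity) (sum_nonneg fun _ _ => h.nonneg _)
  symm k := by
    rw [coeff_U_mul, coeff_U_mul]
    congr 1
    rw [← Finset.sum_range_reflect]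
    refine sum_congr rfl fun i hi => ?_
    rw [← h.symm]
    congr 1
    have := Finset.mem_range.1 hi
    have h5 : ((2 * r + 1 - 1 - i : ℕ) : ℤ) = 2 * r - i := by omega
    rw [h5]
    ring
  anti k hk := by
    rw [coeff_U_mul, coeff_U_mul]
    refine mul_le_mul_of_nonneg_left ?_ (by positivity)
    have h1 : ∑ i ∈ range (2 * r + 1), f.coeff (k + r - i) =
        ∑ i ∈ range (2 * r + 1), f.coeff (k + 1 + r - (i + 1 : ℕ)) := by
      refine sum_congr rfl fun i _ => ?_
      congr 1
      push_cast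
      ring
    have h2 := Finset.sum_range_succ (fun i : ℕ => f.coeff (k + 1 + r - i)) (2 * r + 1)
    have h3 := Finset.sum_range_succ' (fun i : ℕ => f.coeff (k + 1 + r - i)) (2 * r + 1)
    have h4 : f.coeff (k + 1 + r - ((0 : ℕ) : ℤ)) ≤ f.coeff (k + 1 + r - ((2 * r + 1 : ℕ) : ℤ)) := by
      apply h.le
      push_cast
      rw [abs_le]
      constructor
      · rw [abs_of_nonneg (by omega)]; omega
      · rw [abs_of_nonneg (by omega : (0:ℤ) ≤ k + 1 + r - 0)]; omega
    rw [h1]
    linarith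

lemma SU_prod {ι : Type*} (s : Finset ι) (r : ι → ℕ) : SU (∏ i ∈ s, U (r i)) := by
  classical
  induction s using Finset.induction_on with
  | empty => simpa using SU_one
  | insert a s ha ih =>
    rw [prod_insert ha]
    exact ih.U_mul _

lemma exists_bound (f : A) : ∃ N : ℕ, ∀ n : ℕ, N ≤ n → f.coeff (n : ℤ) = 0 := by
  obtain ⟨N, hN⟩ := (f.coeff.support.image Int.natAbs).exists_le
  refine ⟨N + 1, fun n hn => ?_⟩
  by_contra h
  have := hN n (Finset.mem_image.2 ⟨n, Finsupp.mem_support_iff.2 h, by simp⟩)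
  omega

lemma SU.hasSum {f : A} (h : SU f) :
    HasSum (fun n : ℕ => f.coeff (n : ℤ) - f.coeff ((n : ℤ) + 1)) (f.coeff 0) := by
  rw [hasSum_iff_tendsto_nat_of_nonneg (fun n => sub_nonneg.2 (h.anti n (by positivity)))]
  obtain ⟨N, hN⟩ := exists_bound f
  refine tendsto_atTop_of_eventually_const (i₀ := N) fun n hn => ?_
  have h1 := Finset.sum_range_sub' (fun n : ℕ => f.coeff (n : ℤ)) n
  push_cast at h1
  rw [h1, hN n hn, sub_zero]

/-- The total variation of a symmetric unimodal element is twice its value at `0`. -/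
lemma SU.N1_diff {f : A} (h : SU f) : N1 ((1 - T 1) * f) = 2 * f.coeff 0 := by
  have e : ∀ k, ((1 - T 1) * f).coeff k = f.coeff k - f.coeff (k - 1) := by
    intro k
    rw [sub_mul, one_mul, AddMonoidAlgebra.coeff_sub, Finsupp.sub_apply, coeff_T_mul]
  unfold N1
  simp only [e]
  rw [← (Equiv.addRight (1:ℤ)).tsum_eq]
  have hs : Summable fun k : ℤ => |f.coeff (k + 1) - f.coeff k| := by
    have := summ ((1 - T 1) * f)
    simp only [e] at this
    have h2 := (Equiv.addRight (1:ℤ)).summable_iff.2 this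
    simpa [Function.comp_def] using h2
  have h1 : (∑' k : ℤ, |f.coeff (k + 1) - f.coeff k|) = 2 * f.coeff 0 := by
    rw [tsum_of_nat_of_neg_add_one (f := fun k : ℤ => |f.coeff (k + 1) - f.coeff k|)
      (hs.comp_injective Nat.cast_injective)
      (hs.comp_injective (i := fun n : ℕ => (-((n:ℤ) + 1))) (fun a b hab => by
        simp only [neg_inj, add_left_inj, Nat.cast_inj] at hab; exact hab))]
    have a1 : (∑' n : ℕ, |f.coeff ((n:ℤ) + 1) - f.coeff (n:ℤ)|) = f.coeff 0 := by
      rw [← h.hasSum.tsum_eq]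
      congr 1
      ext n
      rw [abs_sub_comm, abs_of_nonneg (sub_nonneg.2 (h.anti n (by positivity)))]
    have a2 : (∑' n : ℕ, |f.coeff (-((n:ℤ) + 1) + 1) - f.coeff (-((n:ℤ) + 1))|) = f.coeff 0 := by
      rw [← h.hasSum.tsum_eq]
      congr 1
      ext n
      rw [h.symm, show -((n:ℤ) + 1) + 1 = -(n:ℤ) by ring, h.symm,
        abs_of_nonneg (sub_nonneg.2 (h.anti n (by positivity)))]
    rw [a1, a2]
    ring
  simpa using h1

lemma N1_diff' (f : A) : N1 ((1 - T (-1)) * f) = N1 ((1 - T 1) * f) := by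
  have : (1 - T (-1)) * f = -(T (-1) * ((1 - T 1) * f)) := by
    have h : T (-1) * T 1 = 1 := by rw [T_mul]; simp [T_zero]
    linear_combination (-f) * h
  rw [this, N1_neg, N1_T_mul]

end Pool.Agent.R248.Ritt
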