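import Pool.Agent.R248.Ritt.Alg

/-!
Fourier bound for the value at `0` of a convolution of uniform measures:
`f(0)² ∑ r_l² ≤ 15/2`.
-/

set_option autoImplicit false

namespace Pool.Agent.R248.Ritt

open Finset Complex

/-- The character `k ↦ e^{ikθ}`. -/
noncomputable def chr (θ : ℝ) : Multiplicative ℤ →* ℂ where
  toFun k := exp ((k.toAdd : ℂ) * θ * I)
  map_one' := by simp
  map_mul' a b := by
    rw [← Complex.exp_add]
    congr 1
    rw [toAdd_mul]
    push_cast
    ring

/-- Evaluation of the Fourier series at `θ`. -/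
noncomputable def ev (θ : ℝ) : A →ₐ[ℝ] ℂ := AddMonoidAlgebra.lift ℝ ℂ ℤ (chr θ)

lemma ev_single (θ : ℝ) (k : ℤ) (a : ℝ) :
    ev θ (AddMonoidAlgebra.single k a) = a * exp ((k : ℂ) * θ * I) := by
  unfold ev
  rw [AddMonoidAlgebra.lift_single]
  simp [chr]

lemma ev_T (θ : ℝ) (k : ℤ) : ev θ (T k) = exp ((k : ℂ) * θ * I) := by
  unfold T
  rw [ev_single]
  simp

lemma ev_continuous (f : A) : Continuous fun θ => ev θ f := by
  induction f using AddMonoidAlgebra.induction_linear with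
  | zero => simp; exact continuous_const
  | add f g hf hg => simp only [map_add]; exact hf.add hg
  | single k a =>
    simp only [ev_single]
    fun_prop

lemma integral_char (k : ℤ) (hk : k ≠ 0) :
    ∫ θ in (-Real.pi)..Real.pi, exp ((k : ℂ) * θ * I) = 0 := by
  have hk' : (k : ℂ) * I ≠ 0 := mul_ne_zero (Int.cast_ne_zero.2 hk) I_ne_zero
  have h : ∀ θ : ℝ, exp ((k : ℂ) * θ * I) = exp (((k : ℂ) * I) * θ) := fun θ => by congr 1; ring
  simp only [h]
  rw [integral_exp_mul_complex hk']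
  have h2 : exp ((k : ℂ) * I * (Real.pi : ℝ)) = exp ((k : ℂ) * I * ((-Real.pi : ℝ) : ℂ)) := by
    rw [Complex.exp_eq_exp_iff_exists_int]
    refine ⟨k, ?_⟩
    push_cast
    ring
  rw [h2, sub_self, zero_div]

lemma coeff_zero_eq (f : A) :
    ∫ θ in (-Real.pi)..Real.pi, ev θ f = (2 * Real.pi * f.coeff 0 : ℝ) := by
  induction f using AddMonoidAlgebra.induction_linear with
  | zero => simp
  | add f g hf hg =>
    simp only [map_add]
    rw [intervalIntegral.integral_add ((ev_continuous f).intervalIntegrable _ _)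
      ((ev_continuous g).intervalIntegrable _ _), hf, hg, AddMonoidAlgebra.coeff_add,
      Finsupp.add_apply]
    push_cast
    ring
  | single k a =>
    simp only [ev_single]
    rw [intervalIntegral.integral_const_mul]
    by_cases hk : k = 0
    · subst hk
      simp
      ring
    · rw [integral_char k hk, AddMonoidAlgebra.coeff_single, Finsupp.single_apply, if_neg hk]
      simp

lemma one_sub_cos_ge {z : ℝ} (hz : |z| ≤ 4) : z ^ 2 / 10 ≤ 1 - Real.cos z := by
  rcases le_or_gt |z| Real.pi with h | h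
  · have h1 := Real.cos_le_one_sub_mul_cos_sq h
    have hpi : Real.pi ^ 2 ≤ 20 := by nlinarith [Real.pi_lt_four, Real.pi_pos]
    have h2 : 1 / 10 ≤ 2 / Real.pi ^ 2 := by
      rw [div_le_div_iff₀ (by norm_num) (by positivity)]
      linarith
    nlinarith [sq_nonneg z, mul_le_mul_of_nonneg_right h2 (sq_nonneg z)]
  · rw [← Real.cos_abs, ← sq_abs z]
    set w := |z|
    have h1 : Real.cos w = - Real.cos (w - Real.pi) := by rw [Real.cos_sub_pi]; ring
    have h2 := Real.one_sub_sq_div_two_le_cos (x := w - Real.pi)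
    have h3 := Real.pi_gt_d2
    rw [h1]
    nlinarith

lemma sum_sq (r : ℕ) : ∑ i ∈ range (2 * r + 1), ((i : ℝ) - r) ^ 2 = r * (r + 1) * (2 * r + 1) / 3 := by
  have h : ∀ n : ℕ, ∀ c : ℝ, ∑ i ∈ range n, ((i : ℝ) - c) ^ 2 =
      n * (n - 1) * (2 * n - 1) / 6 - c * n * (n - 1) + n * c ^ 2 := by
    intro n c
    induction n with
    | zero => simp
    | succ n ih =>
      rw [sum_range_succ, ih]
      push_cast
      ring
  rw [h]
  push_cast
  ring

lemma ev_U (θ : ℝ) (r : ℕ) : ev θ (U r) =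
    ((2 * r + 1 : ℝ)⁻¹ * ∑ i ∈ range (2 * r + 1), Real.cos (((i : ℝ) - r) * θ) : ℝ) := by
  have h1 : ev θ (U r) = ((2 * r + 1 : ℝ)⁻¹ : ℝ) *
      ∑ i ∈ range (2 * r + 1), exp (((((i : ℝ) - r) * θ : ℝ) : ℂ) * I) := by
    unfold U
    rw [map_smul, map_sum, Complex.real_smul]
    congr 1
    refine sum_congr rfl fun i _ => ?_
    rw [ev_T]
    congr 1
    push_cast
    ring
  have h2 : ∑ i ∈ range (2 * r + 1), Real.sin (((i : ℝ) - r) * θ) = 0 := by
    have h3 := Finset.sum_range_reflect (fun i : ℕ => Real.sin (((i : ℝ) - r) * θ)) (2 * r + 1)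
    have h4 : ∑ i ∈ range (2 * r + 1), Real.sin ((((2 * r + 1 - 1 - i : ℕ) : ℝ) - r) * θ) =
        - ∑ i ∈ range (2 * r + 1), Real.sin (((i : ℝ) - r) * θ) := by
      rw [← sum_neg_distrib]
      refine sum_congr rfl fun i hi => ?_
      rw [← Real.sin_neg]
      congr 1
      have hi' := Finset.mem_range.1 hi
      rw [show 2 * r + 1 - 1 - i = 2 * r - i by omega, Nat.cast_sub (by omega)]
      push_cast
      ring
    linarith
  rw [h1]
  push_cast
  congr 1
  have h5 : ∀ i : ℕ, exp ((((i : ℂ) - r) * θ) * I) =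
      Complex.cos (((i : ℂ) - r) * θ) + Complex.sin (((i : ℂ) - r) * θ) * I := fun i =>
    Complex.exp_mul_I _
  simp only [h5]
  rw [sum_add_distrib, ← Finset.sum_mul]
  have h6 : ∑ i ∈ range (2 * r + 1), Complex.sin (((i : ℂ) - r) * θ) = 0 := by
    have := congrArg (fun x : ℝ => (x : ℂ)) h2
    push_cast at this
    exact this
  rw [h6]
  ring

/-- The geometric sum bound. -/
lemma norm_ev_U_le (θ : ℝ) (h : |θ| ≤ Real.pi) (r : ℕ) :
    ‖ev θ (U r)‖ * ((2 * r + 1) * |θ|) ≤ Real.pi := by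
  have h1 : (exp (θ * I) - 1) * ev θ (U r) =
      ((2 * r + 1 : ℝ)⁻¹ : ℝ) * (exp (((r : ℂ) + 1) * θ * I) - exp (-(r : ℂ) * θ * I)) := by
    unfold U
    rw [map_smul, map_sum, Complex.real_smul, mul_left_comm]
    congr 1
    rw [Finset.mul_sum]
    have h2 : ∀ i : ℕ, (exp (θ * I) - 1) * ev θ (T ((i : ℤ) - r)) =
        exp ((((i + 1 : ℕ) : ℂ) - r) * θ * I) - exp (((i : ℂ) - r) * θ * I) := by
      intro i
      rw [ev_T, sub_mul, ← Complex.exp_add, one_mul]
      congr 2
      · push_cast; ring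
      · push_cast; ring
    simp only [h2]
    rw [Finset.sum_range_sub (fun i : ℕ => exp (((i : ℂ) - r) * θ * I))]
    congr 2
    · push_cast; ring
    · push_cast; ring
  have h3 : ‖exp (θ * I) - 1‖ * ‖ev θ (U r)‖ ≤ (2 * r + 1 : ℝ)⁻¹ * 2 := by
    rw [← norm_mul, h1, norm_mul, Complex.norm_real, Real.norm_of_nonneg (by positivity)]
    refine mul_le_mul_of_nonneg_left ?_ (by positivity)
    refine (norm_sub_le _ _).trans ?_
    have e1 : ‖exp (((r : ℂ) + 1) * θ * I)‖ = 1 := by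
      have := Complex.norm_exp_ofReal_mul_I (((r : ℝ) + 1) * θ)
      push_cast at this
      exact this
    have e2 : ‖exp (-(r : ℂ) * θ * I)‖ = 1 := by
      have := Complex.norm_exp_ofReal_mul_I (-(r : ℝ) * θ)
      push_cast at this
      exact this
    rw [e1, e2]
    norm_num
  have h4 : 2 / Real.pi * |θ| ≤ ‖exp (θ * I) - 1‖ := by
    have := Complex.norm_exp_I_mul_ofReal_sub_one (x := θ)
    rw [mul_comm] at this
    rw [this, Real.norm_eq_abs, abs_mul, abs_of_pos (by norm_num : (0:ℝ) < 2)]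
    have h5 : |Real.sin (θ / 2)| = Real.sin (|θ| / 2) := by
      rcases le_total 0 θ with h0 | h0
      · rw [abs_of_nonneg h0, abs_of_nonneg]
        rw [abs_of_nonneg h0] at h
        exact Real.sin_nonneg_of_nonneg_of_le_pi (by linarith) (by linarith)
      · rw [abs_of_nonpos h0, abs_of_nonpos]
        · rw [← Real.sin_neg]; congr 1; ring
        · rw [abs_of_nonpos h0] at h
          exact Real.sin_nonpos_of_nonpos_of_neg_pi_le (by linarith) (by linarith)
    rw [h5]
    have := Real.mul_le_sin (x := |θ| / 2) (by positivity) (by linarith)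
    have e : 2 / Real.pi * (|θ| / 2) * 2 = 2 / Real.pi * |θ| := by ring
    linarith
  have hp := Real.pi_pos
  have h6 : 2 / Real.pi * |θ| * ‖ev θ (U r)‖ ≤ (2 * r + 1 : ℝ)⁻¹ * 2 :=
    (mul_le_mul_of_nonneg_right h4 (norm_nonneg _)).trans h3
  have hr : (0:ℝ) < 2 * r + 1 := by positivity
  have h7 := mul_le_mul_of_nonneg_left h6 (mul_nonneg hr.le hp.le)
  have e1 : (2 * (r:ℝ) + 1) * Real.pi * (2 / Real.pi * |θ| * ‖ev θ (U r)‖) =
      2 * (‖ev θ (U r)‖ * ((2 * r + 1) * |θ|)) := by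
    field_simp
  have e2 : (2 * (r:ℝ) + 1) * Real.pi * ((2 * r + 1 : ℝ)⁻¹ * 2) = 2 * Real.pi := by
    field_simp
  rw [e1, e2] at h7
  linarith

/-- Pointwise bound for the Fourier transform of the uniform measure. -/
lemma ev_U_bound (θ : ℝ) (h : |θ| ≤ Real.pi) (r : ℕ) :
    ‖ev θ (U r)‖ ^ 2 * (1 + (r : ℝ) ^ 2 * θ ^ 2 / 15) ≤ 1 := by
  rcases le_or_gt (2 * r * |θ|) 4 with hc | hc
  · set u : ℝ := (2 * r + 1 : ℝ)⁻¹ * ∑ i ∈ range (2 * r + 1), Real.cos (((i : ℝ) - r) * θ) with hu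
    have h1 : ‖ev θ (U r)‖ ^ 2 = u ^ 2 := by
      rw [ev_U, Complex.norm_real, Real.norm_eq_abs, sq_abs]
    have hr : (0:ℝ) < 2 * r + 1 := by positivity
    have h2 : u ^ 2 ≤ 1 - (r : ℝ) * (r + 1) * θ ^ 2 / 15 := by
      have h3 : (∑ i ∈ range (2 * r + 1), Real.cos (((i : ℝ) - r) * θ)) ^ 2 ≤
          (2 * r + 1) * ∑ i ∈ range (2 * r + 1), Real.cos (((i : ℝ) - r) * θ) ^ 2 := by
        have := sq_sum_le_card_mul_sum_sq (s := range (2 * r + 1))
          (f := fun i : ℕ => Real.cos (((i : ℝ) - r) * θ))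
        rw [card_range] at this
        push_cast at this
        exact this
      have h4 : ∑ i ∈ range (2 * r + 1), Real.cos (((i : ℝ) - r) * θ) ^ 2 ≤
          ∑ i ∈ range (2 * r + 1), (1 - ((i : ℝ) - r) ^ 2 * (θ ^ 2 / 5)) := by
        refine sum_le_sum fun i hi => ?_
        have hi' : (i : ℝ) ≤ 2 * r := by
          have := Finset.mem_range.1 hi
          exact_mod_cast (by omega : i ≤ 2 * r)
        have h5 : |2 * (((i : ℝ) - r) * θ)| ≤ 4 := by
          rw [abs_mul, abs_mul, abs_of_pos (by norm_num : (0:ℝ) < 2)]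
          have h6 : |(i : ℝ) - r| ≤ r := by
            rw [abs_le]
            constructor
            · have : (0:ℝ) ≤ i := by positivity
              linarith
            · linarith
          have := mul_le_mul_of_nonneg_right h6 (abs_nonneg θ)
          linarith
        have h7 := one_sub_cos_ge h5
        have h8 := Real.cos_sq (((i : ℝ) - r) * θ)
        rw [h8]
        nlinarith
      have h9 : ∑ i ∈ range (2 * r + 1), (1 - ((i : ℝ) - r) ^ 2 * (θ ^ 2 / 5)) =
          (2 * r + 1) * (1 - (r : ℝ) * (r + 1) * θ ^ 2 / 15) := by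
        rw [sum_sub_distrib, ← Finset.sum_mul, sum_sq]
        simp
        ring
      have h10 : u ^ 2 = ((2 * r + 1 : ℝ)⁻¹) ^ 2 *
          (∑ i ∈ range (2 * r + 1), Real.cos (((i : ℝ) - r) * θ)) ^ 2 := by
        rw [hu, mul_pow]
      rw [h10]
      calc ((2 * r + 1 : ℝ)⁻¹) ^ 2 * (∑ i ∈ range (2 * r + 1), Real.cos (((i : ℝ) - r) * θ)) ^ 2
          ≤ ((2 * r + 1 : ℝ)⁻¹) ^ 2 * ((2 * r + 1) *
            ((2 * r + 1) * (1 - (r : ℝ) * (r + 1) * θ ^ 2 / 15))) := by
            refine mul_le_mul_of_nonneg_left ?_ (by positivity)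
            refine h3.trans (mul_le_mul_of_nonneg_left ?_ hr.le)
            rw [← h9]
            exact h4
        _ = 1 - (r : ℝ) * (r + 1) * θ ^ 2 / 15 := by field_simp
    rw [h1]
    set y := (r : ℝ) ^ 2 * θ ^ 2 / 15 with hy
    have hy0 : 0 ≤ y := by positivity
    have h5 : u ^ 2 ≤ 1 - y := by
      have : (r : ℝ) ^ 2 * θ ^ 2 / 15 ≤ (r : ℝ) * (r + 1) * θ ^ 2 / 15 := by
        have : (0:ℝ) ≤ r * θ ^ 2 := by positivity
        nlinarith
      linarith
    nlinarith
  · have h1 := norm_ev_U_le θ h r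
    set x := ‖ev θ (U r)‖ with hx
    have hx0 : 0 ≤ x := norm_nonneg _
    set w := 2 * r * |θ| with hw
    have h2 : x * w ≤ Real.pi := by
      refine le_trans ?_ h1
      have := mul_nonneg hx0 (abs_nonneg θ)
      rw [hw]
      nlinarith
    have hxw : 0 ≤ x * w := mul_nonneg hx0 (by linarith)
    have h3 : (x * w) ^ 2 ≤ 10 := by
      have : (x * w) ^ 2 ≤ Real.pi ^ 2 := pow_le_pow_left₀ hxw h2 2
      nlinarith [Real.pi_lt_d2, Real.pi_pos]
    have h4 : (r : ℝ) ^ 2 * θ ^ 2 = w ^ 2 / 4 := by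
      rw [hw, mul_pow, mul_pow, sq_abs]; ring
    have h5 : 16 * x ^ 2 ≤ (x * w) ^ 2 := by
      rw [mul_pow]
      nlinarith [sq_nonneg x, mul_self_nonneg (w - 4)]
    rw [h4]
    nlinarith

end Pool.Agent.R248.Ritt
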