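import Pool.Agent.R248.Ritt.Prod

/-!
The deterministic bound `∑_i ‖(δ - U_{r_i}) * ∏_{l ≠ i} U_{r_l}‖ ≤ 34` and its consequence for
mixtures of uniform measures.
-/

set_option autoImplicit false

namespace Pool.Agent.R248.Ritt

open Finset

lemma split_aux {ι : Type*} [DecidableEq ι] (x : ι → ℝ) (hx : ∀ i, 0 ≤ x i) (I : Finset ι) :
    2 ≤ I.card → ∃ (S T : Finset ι) (a b : ι), Disjoint S T ∧ S ∪ T = I ∧ a ∈ S ∧ b ∈ T ∧
      (∀ i ∈ S, x i ≤ x a) ∧ (∀ i ∈ T, x i ≤ x b) ∧
      ∑ i ∈ S.erase a, x i ≤ ∑ i ∈ T, x i ∧ ∑ i ∈ T.erase b, x i ≤ ∑ i ∈ S, x i := by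
  induction I using Finset.induction_on_min_value x with
  | empty => intro h; simp at h
  | insert c s hcs hmin ih =>
    intro hcard
    rw [card_insert_of_notMem hcs] at hcard
    rcases Nat.lt_or_ge s.card 2 with h1 | h1
    · have h2 : s.card = 1 := by omega
      obtain ⟨b, rfl⟩ := card_eq_one.1 h2
      have hcb : c ≠ b := by simpa using hcs
      refine ⟨{b}, {c}, b, c, by simpa using hcb.symm, by
        ext z; simp [or_comm], by simp, by simp, by simp, by simp, ?_, ?_⟩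
      · simp [hx]
      · simp [hx]
    · obtain ⟨S, T, a, b, hd, hu, ha, hb, hSa, hTb, h3, h4⟩ := ih h1
      have haI : a ∈ s := hu ▸ mem_union_left _ ha
      have hbI : b ∈ s := hu ▸ mem_union_right _ hb
      have hcS : c ∉ S := fun h => hcs (hu ▸ mem_union_left _ h)
      have hcT : c ∉ T := fun h => hcs (hu ▸ mem_union_right _ h)
      have hca : c ≠ a := fun h => hcs (h ▸ haI)
      have hcb : c ≠ b := fun h => hcs (h ▸ hbI)
      have eS := add_sum_erase S x ha
      have eT := add_sum_erase T x hb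
      rcases le_total (∑ i ∈ S.erase a, x i) (∑ i ∈ T.erase b, x i) with h5 | h5
      · refine ⟨insert c S, T, a, b, ?_, ?_, mem_insert_of_mem ha, hb, ?_, hTb, ?_, ?_⟩
        · rw [disjoint_insert_left]; exact ⟨hcT, hd⟩
        · rw [insert_union, hu]
        · intro i hi
          rcases mem_insert.1 hi with rfl | hi
          · exact hmin a haI
          · exact hSa i hi
        · rw [erase_insert_of_ne hca, sum_insert (fun h => hcS (mem_of_mem_erase h))]
          have := hmin b hbI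
          linarith
        · rw [sum_insert hcS]
          have := hx c
          linarith
      · refine ⟨S, insert c T, a, b, ?_, ?_, ha, mem_insert_of_mem hb, hSa, ?_, ?_, ?_⟩
        · rw [disjoint_insert_right]; exact ⟨hcS, hd⟩
        · rw [union_insert, hu]
        · intro i hi
          rcases mem_insert.1 hi with rfl | hi
          · exact hmin b hbI
          · exact hTb i hi
        · rw [sum_insert hcT]
          have := hx c
          linarith
        · rw [erase_insert_of_ne hcb, sum_insert (fun h => hcT (mem_of_mem_erase h))]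
          have := hmin a haI
          linarith

/-- The `i`-th term. -/
noncomputable def term {ι : Type*} [DecidableEq ι] (I : Finset ι) (r : ι → ℕ) (i : ι) : A :=
  (1 - U (r i)) * ∏ l ∈ I.erase i, U (r l)

lemma term_le_two {ι : Type*} [DecidableEq ι] (I : Finset ι) (r : ι → ℕ) (i : ι) :
    N1 (term I r i) ≤ 2 := by
  unfold term
  refine (N1_mul_le _ _).trans ?_
  have h1 : N1 (1 - U (r i)) ≤ 2 := by
    rw [sub_eq_add_neg]
    refine (N1_add_le _ _).trans ?_
    rw [N1_neg, N1_one]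
    linarith [N1_U_le (r i)]
  calc _ ≤ 2 * 1 := mul_le_mul h1 (N1_prod_U_le _ _) (N1_nonneg _) (by norm_num)
    _ = 2 := by norm_num

lemma group_bound {ι : Type*} [DecidableEq ι] (I S T : Finset ι) (a i : ι) (r : ι → ℕ)
    (hd : Disjoint S T) (hu : S ∪ T = I) (ha : a ∈ S) (hi : i ∈ S.erase a)
    (hSa : ∀ i ∈ S, (r i : ℝ) ^ 2 ≤ (r a : ℝ) ^ 2) :
    N1 (term I r i) * √((∑ l ∈ S, (r l : ℝ) ^ 2) * ∑ l ∈ T, (r l : ℝ) ^ 2) ≤ 15 * (r i : ℝ) ^ 2 := by
  have hia : i ≠ a := (mem_erase.1 hi).1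
  have hiS : i ∈ S := (mem_erase.1 hi).2
  have hiT : i ∉ T := fun h => disjoint_left.1 hd hiS h
  have e1 : I.erase i = S.erase i ∪ T := by
    rw [← hu, erase_union_distrib, erase_eq_of_notMem hiT]
  have e2 : term I r i = (1 - U (r i)) * ((∏ l ∈ S.erase i, U (r l)) * ∏ l ∈ T, U (r l)) := by
    unfold term
    rw [e1, prod_union (disjoint_of_subset_left (erase_subset _ _) hd)]
  have h1 := term_bound (S.erase i) T r (r i)
  rw [← e2] at h1
  have eS := add_sum_erase S (fun l => (r l : ℝ) ^ 2) hiS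
  have haS : (r a : ℝ) ^ 2 ≤ ∑ l ∈ S.erase i, (r l : ℝ) ^ 2 :=
    single_le_sum (f := fun l => (r l : ℝ) ^ 2) (fun l _ => sq_nonneg _)
      (mem_erase.2 ⟨hia.symm, ha⟩)
  have hile := hSa i hiS
  set V := ∑ l ∈ S, (r l : ℝ) ^ 2
  set V' := ∑ l ∈ S.erase i, (r l : ℝ) ^ 2
  set W := ∑ l ∈ T, (r l : ℝ) ^ 2 with hW
  have hW0 : 0 ≤ W := sum_nonneg fun _ _ => sq_nonneg _
  have hV'0 : 0 ≤ V' := sum_nonneg fun _ _ => sq_nonneg _
  have hVV : V ≤ 2 * V' := by
    have eS' : (r i : ℝ) ^ 2 + V' = V := eS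
    linarith
  have hV0 : 0 ≤ V := sum_nonneg fun _ _ => sq_nonneg _
  have h2 : (N1 (term I r i) * √(V * W)) ^ 2 ≤ (15 * (r i : ℝ) ^ 2) ^ 2 := by
    rw [mul_pow, Real.sq_sqrt (mul_nonneg hV0 hW0)]
    have h3 : V * W ≤ 2 * (V' * W) := by nlinarith
    have h4 := mul_le_mul_of_nonneg_left h3 (sq_nonneg (N1 (term I r i)))
    have h5 : 0 ≤ ((r i : ℝ) ^ 2) ^ 2 := sq_nonneg _
    nlinarith
  exact le_of_sq_le_sq h2 (by positivity)
where
  le_of_sq_le_sq {x y : ℝ} (h : x ^ 2 ≤ y ^ 2) (hy : 0 ≤ y) : x ≤ y := by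
    by_contra hc
    push Not at hc
    nlinarith

lemma sum_term_le {ι : Type*} [DecidableEq ι] (I : Finset ι) (r : ι → ℕ) (hI : 2 ≤ I.card) :
    ∑ i ∈ I, N1 (term I r i) ≤ 34 := by
  obtain ⟨S, T, a, b, hd, hu, ha, hb, hSa, hTb, h3, h4⟩ :=
    split_aux (fun i => (r i : ℝ) ^ 2) (fun i => sq_nonneg _) I hI
  rw [← hu, sum_union hd, ← add_sum_erase S _ ha, ← add_sum_erase T _ hb, hu]
  have ta := term_le_two I r a
  have tb := term_le_two I r b
  set V := ∑ l ∈ S, (r l : ℝ) ^ 2 with hV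
  set W := ∑ l ∈ T, (r l : ℝ) ^ 2 with hW
  have hV0 : 0 ≤ V := sum_nonneg fun _ _ => sq_nonneg _
  have hW0 : 0 ≤ W := sum_nonneg fun _ _ => sq_nonneg _
  have hVe : ∑ l ∈ S.erase a, (r l : ℝ) ^ 2 ≤ V :=
    sum_le_sum_of_subset_of_nonneg (erase_subset _ _) fun _ _ _ => sq_nonneg _
  have hWe : ∑ l ∈ T.erase b, (r l : ℝ) ^ 2 ≤ W :=
    sum_le_sum_of_subset_of_nonneg (erase_subset _ _) fun _ _ _ => sq_nonneg _
  have hVe0 : 0 ≤ ∑ l ∈ S.erase a, (r l : ℝ) ^ 2 := sum_nonneg fun _ _ => sq_nonneg _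
  have hWe0 : 0 ≤ ∑ l ∈ T.erase b, (r l : ℝ) ^ 2 := sum_nonneg fun _ _ => sq_nonneg _
  set P := √(V * W) with hP
  have hP2 : P ^ 2 = V * W := Real.sq_sqrt (mul_nonneg hV0 hW0)
  have hP0 : 0 ≤ P := Real.sqrt_nonneg _
  have key : ∀ z : ℝ, 0 ≤ z → z ≤ V → z ≤ W → z ≤ P := by
    intro z h0 h1 h2
    refine Real.le_sqrt_of_sq_le ?_
    rw [sq]
    exact mul_le_mul h1 h2 h0 hV0
  have k1 := key _ hVe0 hVe h3
  have k2 := key _ hWe0 h4 hWe
  have s1 : (∑ i ∈ S.erase a, N1 (term I r i)) * P ≤ 15 * ∑ l ∈ S.erase a, (r l : ℝ) ^ 2 := by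
    rw [Finset.sum_mul, Finset.mul_sum]
    exact sum_le_sum fun i hi => group_bound I S T a i r hd hu ha hi hSa
  have s2 : (∑ i ∈ T.erase b, N1 (term I r i)) * P ≤ 15 * ∑ l ∈ T.erase b, (r l : ℝ) ^ 2 := by
    rw [Finset.sum_mul, Finset.mul_sum]
    refine sum_le_sum fun i hi => ?_
    have := group_bound I T S b i r hd.symm (by rw [union_comm]; exact hu) hb hi hTb
    rwa [mul_comm W V] at this
  rcases hP0.eq_or_lt with h0 | h0
  · -- all remaining `r i` vanish
    have z : ∀ i, (r i : ℝ) ^ 2 ≤ 0 → N1 (term I r i) = 0 := by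
      intro i hi
      have : r i = 0 := by
        have h5 : (r i : ℝ) ^ 2 = 0 := le_antisymm hi (sq_nonneg _)
        exact_mod_cast pow_eq_zero_iff (two_ne_zero) |>.1 h5
      unfold term
      rw [this, U_zero, sub_self, zero_mul, N1_zero]
    have z1 : ∑ i ∈ S.erase a, N1 (term I r i) = 0 := by
      refine sum_eq_zero fun i hi => z i ?_
      have := single_le_sum (f := fun l => (r l : ℝ) ^ 2) (fun l _ => sq_nonneg _) hi
      linarith
    have z2 : ∑ i ∈ T.erase b, N1 (term I r i) = 0 := by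
      refine sum_eq_zero fun i hi => z i ?_
      have := single_le_sum (f := fun l => (r l : ℝ) ^ 2) (fun l _ => sq_nonneg _) hi
      linarith
    rw [z1, z2]
    linarith
  · have c1 : ∑ i ∈ S.erase a, N1 (term I r i) ≤ 15 := by
      by_contra hc
      push Not at hc
      nlinarith
    have c2 : ∑ i ∈ T.erase b, N1 (term I r i) ≤ 15 := by
      by_contra hc
      push Not at hc
      nlinarith
    linarith

/-- The bound for finite mixtures of uniform measures. -/
theorem mixture_bound (p : ℕ → ℝ) (hp : ∀ j, 0 ≤ p j) (R n : ℕ) (hn : 1 ≤ n) :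
    (n + 1) * N1 (((∑ j ∈ range R, p j) • (1 : A) - ∑ j ∈ range R, p j • U j) *
      (∑ j ∈ range R, p j • U j) ^ n) ≤ 34 * (∑ j ∈ range R, p j) ^ (n + 1) := by
  set s := ∑ j ∈ range R, p j with hs
  set m := ∑ j ∈ range R, p j • U j with hm
  have key : ∀ i : Fin (n + 1), N1 ((s • (1 : A) - m) * m ^ n) ≤
      ∑ x ∈ Fintype.piFinset (fun _ : Fin (n + 1) => range R),
        (∏ l, p (x l)) * N1 (term univ x i) := by
    intro i
    have h1 : (s • (1 : A) - m) * m ^ n =
        ∏ l : Fin (n + 1), ∑ j ∈ range R, p j • (if l = i then 1 - U j else U j) := by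
      rw [← mul_prod_erase univ _ (mem_univ i)]
      congr 1
      · simp only [if_true]
        rw [hs, hm, Finset.sum_smul, ← sum_sub_distrib]
        exact sum_congr rfl fun j _ => by rw [smul_sub]
      · have : ∀ l ∈ univ.erase i, (∑ j ∈ range R, p j • (if l = i then 1 - U j else U j)) = m := by
          intro l hl
          rw [hm]
          exact sum_congr rfl fun j _ => by rw [if_neg (mem_erase.1 hl).1]
        rw [prod_congr rfl this, prod_const, card_erase_of_mem (mem_univ i)]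
        simp
    rw [h1, prod_univ_sum]
    refine (N1_sum_le _ _).trans (sum_le_sum fun x _ => ?_)
    have h2 : ∏ l, (p (x l) • (if l = i then 1 - U (x l) else U (x l)) : A) =
        (∏ l, p (x l)) • term univ x i := by
      simp only [Algebra.smul_def]
      rw [prod_mul_distrib, ← map_prod]
      congr 1
      unfold term
      rw [← mul_prod_erase univ _ (mem_univ i), if_pos rfl]
      congr 1
      exact prod_congr rfl fun l hl => by rw [if_neg (mem_erase.1 hl).1]
    rw [h2, N1_smul, abs_of_nonneg (prod_nonneg fun l _ => hp _)]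
  have h3 : ((n : ℝ) + 1) * N1 ((s • (1 : A) - m) * m ^ n) =
      ∑ _i : Fin (n + 1), N1 ((s • (1 : A) - m) * m ^ n) := by
    rw [sum_const, card_univ, Fintype.card_fin, nsmul_eq_mul]
    push_cast
    rfl
  rw [h3]
  refine (sum_le_sum fun i _ => key i).trans ?_
  rw [sum_comm]
  have h4 : ∀ x ∈ Fintype.piFinset (fun _ : Fin (n + 1) => range R),
      ∑ i, (∏ l, p (x l)) * N1 (term univ x i) ≤ 34 * ∏ l, p (x l) := by
    intro x _
    rw [← Finset.mul_sum, mul_comm (34:ℝ)]
    exact mul_le_mul_of_nonneg_left (sum_term_le univ x (by simp; omega))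
      (prod_nonneg fun l _ => hp _)
  refine (sum_le_sum h4).trans (le_of_eq ?_)
  rw [← Finset.mul_sum, ← prod_univ_sum (fun _ : Fin (n + 1) => range R) (fun _ j => p j)]
  simp [hs]

end Pool.Agent.R248.Ritt
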