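import Pool.Agent.R248.Ritt.Four

/-!
The bound `f(0)² ∑ r_l² ≤ 15/2` for `f` a convolution of uniform measures, and the bound for the
second difference.
-/

set_option autoImplicit false

namespace Pool.Agent.R248.Ritt

open Finset MeasureTheory

lemma prod_one_add_ge {ι : Type*} (s : Finset ι) (x : ι → ℝ) (hx : ∀ i ∈ s, 0 ≤ x i) :
    (∑ i ∈ s, x i ^ 2 ≤ (∑ i ∈ s, x i) ^ 2) ∧
    1 + ∑ i ∈ s, x i + ((∑ i ∈ s, x i) ^ 2 - ∑ i ∈ s, x i ^ 2) / 2 ≤ ∏ i ∈ s, (1 + x i) := by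
  classical
  induction s using Finset.induction_on with
  | empty => simp
  | insert a s ha ih =>
    obtain ⟨h1, h2⟩ := ih fun i hi => hx i (mem_insert_of_mem hi)
    have hxa := hx a (mem_insert_self _ _)
    have hS : 0 ≤ ∑ i ∈ s, x i := sum_nonneg fun i hi => hx i (mem_insert_of_mem hi)
    rw [sum_insert ha, sum_insert ha, prod_insert ha]
    set S := ∑ i ∈ s, x i
    set Q := ∑ i ∈ s, x i ^ 2
    constructor
    · nlinarith [mul_nonneg hxa hS]
    · have h3 := mul_le_mul_of_nonneg_left h2 (by linarith : 0 ≤ 1 + x a)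
      nlinarith [mul_nonneg hxa (sub_nonneg.2 h1)]

lemma prod_one_add_ge_sq {ι : Type*} (s : Finset ι) (x : ι → ℝ) (hx : ∀ i ∈ s, 0 ≤ x i)
    (hmax : ∀ i ∈ s, x i ≤ (∑ j ∈ s, x j) / 2) :
    (1 + (∑ i ∈ s, x i) / 2) ^ 2 ≤ ∏ i ∈ s, (1 + x i) := by
  obtain ⟨-, h⟩ := prod_one_add_ge s x hx
  refine le_trans ?_ h
  have h1 : ∑ i ∈ s, x i ^ 2 ≤ (∑ i ∈ s, x i) * ((∑ j ∈ s, x j) / 2) := by
    rw [Finset.sum_mul]
    refine sum_le_sum fun i hi => ?_
    rw [sq]
    exact mul_le_mul_of_nonneg_left (hmax i hi) (hx i hi)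
  nlinarith

lemma integral_bound {a : ℝ} (ha : 0 < a) :
    ∫ θ in (-Real.pi)..Real.pi, 1 / (1 + (a * θ) ^ 2) ≤ Real.pi / a := by
  have h1 : ∫ θ in (-Real.pi)..Real.pi, 1 / (1 + (a * θ) ^ 2) =
      a⁻¹ • ∫ θ in (a * -Real.pi)..(a * Real.pi), 1 / (1 + θ ^ 2) :=
    intervalIntegral.integral_comp_mul_left (fun θ => 1 / (1 + θ ^ 2)) ha.ne'
  rw [h1, integral_one_div_one_add_sq, smul_eq_mul, div_eq_inv_mul]
  refine mul_le_mul_of_nonneg_left ?_ (by positivity)
  have h2 := Real.arctan_lt_pi_div_two (a * Real.pi)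
  have h3 := Real.neg_pi_div_two_lt_arctan (a * -Real.pi)
  linarith

/-- The value at zero of a convolution of uniform measures. -/
lemma prod_U_zero {ι : Type*} (s : Finset ι) (r : ι → ℕ) :
    (∏ i ∈ s, U (r i)).coeff 0 ^ 2 * ∑ i ∈ s, (r i : ℝ) ^ 2 ≤ 15 / 2 := by
  classical
  set f := ∏ i ∈ s, U (r i) with hf
  set V := ∑ i ∈ s, (r i : ℝ) ^ 2 with hV
  have hf0 : 0 ≤ f.coeff 0 := (SU_prod s r).nonneg 0
  by_cases hmax : ∀ i ∈ s, (r i : ℝ) ^ 2 ≤ V / 2
  · rcases (sum_nonneg fun i _ => sq_nonneg (r i : ℝ) : 0 ≤ V).eq_or_lt with h0 | h0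
    · have hV0 : V = 0 := h0.symm
      rw [hV0]; norm_num
    · -- Fourier
      set a := √(V / 30) with ha
      have ha0 : 0 < a := Real.sqrt_pos.2 (by positivity)
      have ha2 : a ^ 2 = V / 30 := Real.sq_sqrt (by positivity)
      have hb : ∀ θ ∈ Set.Icc (-Real.pi) Real.pi, ‖ev θ f‖ ≤ 1 / (1 + (a * θ) ^ 2) := by
        intro θ hθ
        have hθ' : |θ| ≤ Real.pi := abs_le.2 hθ
        have h1 : ∏ i ∈ s, (‖ev θ (U (r i))‖ ^ 2 * (1 + (r i : ℝ) ^ 2 * θ ^ 2 / 15)) ≤ 1 :=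
          prod_le_one (fun i _ => by positivity) fun i _ => ev_U_bound θ hθ' (r i)
        rw [prod_mul_distrib, prod_pow] at h1
        have h2 : ∏ i ∈ s, ‖ev θ (U (r i))‖ = ‖ev θ f‖ := by
          rw [hf, map_prod, norm_prod]
        rw [h2] at h1
        have h3 : ∑ i ∈ s, (r i : ℝ) ^ 2 * θ ^ 2 / 15 = V * θ ^ 2 / 15 := by
          rw [← sum_div, ← Finset.sum_mul]
        have h4 := prod_one_add_ge_sq s (fun i => (r i : ℝ) ^ 2 * θ ^ 2 / 15)
          (fun i _ => by positivity) (fun i hi => by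
            rw [h3]
            have := mul_le_mul_of_nonneg_right (hmax i hi) (sq_nonneg θ)
            linarith)
        rw [h3] at h4
        have h5 : 1 + V * θ ^ 2 / 15 / 2 = 1 + (a * θ) ^ 2 := by rw [mul_pow, ha2]; ring
        rw [h5] at h4
        have h6 : (‖ev θ f‖ * (1 + (a * θ) ^ 2)) ^ 2 ≤ 1 := by
          rw [mul_pow]
          exact (mul_le_mul_of_nonneg_left h4 (by positivity)).trans h1
        have h7 : ‖ev θ f‖ * (1 + (a * θ) ^ 2) ≤ 1 := by
          have h8 : 0 ≤ ‖ev θ f‖ * (1 + (a * θ) ^ 2) := by positivity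
          nlinarith
        rw [le_div_iff₀ (by positivity)]
        exact h7
      have h1 : 2 * Real.pi * f.coeff 0 ≤ Real.pi / a := by
        have h2 : ‖((2 * Real.pi * f.coeff 0 : ℝ) : ℂ)‖ ≤
            ∫ θ in (-Real.pi)..Real.pi, 1 / (1 + (a * θ) ^ 2) := by
          rw [← coeff_zero_eq]
          refine intervalIntegral.norm_integral_le_of_norm_le (by linarith [Real.pi_pos]) ?_ ?_
          · filter_upwards with θ hθ
            exact hb θ ⟨hθ.1.le, hθ.2⟩
          · apply Continuous.intervalIntegrable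
            refine continuous_const.div (by fun_prop) fun x => ?_
            positivity
        rw [Complex.norm_real, Real.norm_of_nonneg (by positivity)] at h2
        exact h2.trans (integral_bound ha0)
      have h3 : f.coeff 0 * a ≤ 1 / 2 := by
        rw [le_div_iff₀ ha0] at h1
        have hp := Real.pi_pos
        by_contra hcon
        push Not at hcon
        nlinarith
      have h4 : (f.coeff 0 * a) ^ 2 ≤ (1 / 2) ^ 2 := pow_le_pow_left₀ (by positivity) h3 2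
      rw [mul_pow, ha2] at h4
      linarith
  · push Not at hmax
    obtain ⟨a, ha, hmax⟩ := hmax
    have h1 : f = U (r a) * ∏ i ∈ s.erase a, U (r i) := by rw [hf, mul_prod_erase s (fun i => U (r i)) ha]
    have h2 : f.coeff 0 ≤ (2 * (r a : ℝ) + 1)⁻¹ := by
      rw [h1, coeff_U_mul]
      have hr : (0:ℝ) < 2 * r a + 1 := by positivity
      calc _ ≤ (2 * (r a : ℝ) + 1)⁻¹ * 1 := by
            refine mul_le_mul_of_nonneg_left ?_ (by positivity)
            refine le_trans ?_ (N1_prod_U_le (s.erase a) r)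
            have hSU := SU_prod (s.erase a) r
            set g := ∏ i ∈ s.erase a, U (r i)
            have h3 : ∑ i ∈ range (2 * r a + 1), g.coeff (0 + (r a : ℤ) - i) =
                ∑ k ∈ (range (2 * r a + 1)).image (fun i : ℕ => (0 + (r a : ℤ) - i)),
                  |g.coeff k| := by
              rw [sum_image (fun i _ j _ hij => by
                have : (0 + (r a : ℤ) - i) = (0 + (r a : ℤ) - j) := hij
                omega)]
              exact sum_congr rfl fun i _ => (abs_of_nonneg (hSU.nonneg _)).symm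
            rw [h3]
            exact (summ g).sum_le_tsum _ fun _ _ => abs_nonneg _
        _ = _ := mul_one _
    have hr : (0:ℝ) < 2 * r a + 1 := by positivity
    have h3 : f.coeff 0 * (2 * r a + 1) ≤ 1 := by
      have := mul_le_mul_of_nonneg_right h2 hr.le
      rwa [inv_mul_cancel₀ hr.ne'] at this
    have h4 : (f.coeff 0 * (2 * r a + 1)) ^ 2 ≤ 1 := by
      have : 0 ≤ f.coeff 0 * (2 * r a + 1) := by positivity
      nlinarith
    rw [mul_pow] at h4
    have h5 : V ≤ (2 * (r a : ℝ) + 1) ^ 2 := by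
      have : (0:ℝ) ≤ r a := by positivity
      nlinarith
    have h6 := mul_le_mul_of_nonneg_left h5 (sq_nonneg (f.coeff 0))
    linarith

/-- `1 - U r` is the second difference times an element of norm at most `r²/3`. -/
lemma one_sub_U (r : ℕ) : ∃ w : A, 1 - U r = w * (1 - T 1) * (1 - T (-1)) ∧ N1 w ≤ (r : ℝ) ^ 2 / 3 := by
  -- `G x = ∑_{i < x} T i`
  have hG : ∀ x : ℕ, (1 - T 1) * ∑ i ∈ range x, T (i : ℤ) = 1 - T x := by
    intro x
    rw [Finset.mul_sum]
    have : ∀ i : ℕ, (1 - T 1) * T (i : ℤ) = T (i : ℤ) - T ((i + 1 : ℕ) : ℤ) := by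
      intro i
      rw [sub_mul, one_mul, T_mul, add_comm]
      push_cast
      rfl
    simp only [this]
    rw [Finset.sum_range_sub' (fun i : ℕ => T (i : ℤ))]
    simp [T_zero]
  have hG' : ∀ x : ℕ, (1 - T (-1)) * ∑ i ∈ range x, T (-(i : ℤ)) = 1 - T (-(x : ℤ)) := by
    intro x
    rw [Finset.mul_sum]
    have : ∀ i : ℕ, (1 - T (-1)) * T (-(i : ℤ)) = T (-(i : ℤ)) - T (-((i + 1 : ℕ) : ℤ)) := by
      intro i
      rw [sub_mul, one_mul, T_mul]
      congr 2
      push_cast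
      ring
    simp only [this]
    rw [Finset.sum_range_sub' (fun i : ℕ => T (-(i : ℤ)))]
    simp [T_zero]
  set Q : ℕ → A := fun x => (∑ i ∈ range x, T (i : ℤ)) * ∑ i ∈ range x, T (-(i : ℤ)) with hQ
  have hQN : ∀ x : ℕ, N1 (Q x) ≤ (x : ℝ) ^ 2 := by
    intro x
    refine (N1_mul_le _ _).trans ?_
    have h1 : N1 (∑ i ∈ range x, T (i : ℤ)) ≤ x := by
      refine (N1_sum_le _ _).trans ?_
      simp [N1_T]
    have h2 : N1 (∑ i ∈ range x, T (-(i : ℤ))) ≤ x := by
      refine (N1_sum_le _ _).trans ?_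
      simp [N1_T]
    rw [sq]
    exact mul_le_mul h1 h2 (N1_nonneg _) (by positivity)
  have hQD : ∀ x : ℕ, Q x * ((1 - T 1) * (1 - T (-1))) = 2 - T x - T (-(x : ℤ)) := by
    intro x
    have e : Q x * ((1 - T 1) * (1 - T (-1))) = (1 - T x) * (1 - T (-(x : ℤ))) := by
      rw [← hG, ← hG', hQ]
      ring
    rw [e]
    have h : T (x : ℤ) * T (-(x : ℤ)) = 1 := by rw [T_mul]; simp [T_zero]
    linear_combination h
  -- the symmetric form of `U r`
  have hU : ∀ r : ℕ, (2 * r + 1 : ℝ) • (1 - U r) = ∑ x ∈ range (r + 1), (2 - T x - T (-(x : ℤ))) := by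
    intro r
    have h1 : (2 * r + 1 : ℝ) • U r = ∑ i ∈ range (2 * r + 1), T ((i : ℤ) - r) := by
      unfold U
      rw [smul_smul, mul_inv_cancel₀ (by positivity), one_smul]
    have h2 : ∑ i ∈ range (2 * r + 1), T ((i : ℤ) - r) =
        ∑ x ∈ range (r + 1), (T (x : ℤ) + T (-(x : ℤ))) - 1 := by
      have h3 : ∑ i ∈ range (2 * r + 1), T ((i : ℤ) - r) =
          ∑ i ∈ range r, T ((i : ℤ) - r) + ∑ i ∈ range (r + 1), T (i : ℤ) := by
        rw [show 2 * r + 1 = r + (r + 1) by ring, sum_range_add]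
        congr 1
        refine sum_congr rfl fun i _ => ?_
        congr 1
        push_cast
        ring
      have h4 : ∑ i ∈ range r, T ((i : ℤ) - r) = ∑ i ∈ range r, T (-((i + 1 : ℕ) : ℤ)) := by
        rw [← Finset.sum_range_reflect]
        refine sum_congr rfl fun i hi => ?_
        have := Finset.mem_range.1 hi
        congr 1
        omega
      have h5 := Finset.sum_range_succ' (fun i : ℕ => T (-(i : ℤ))) r
      rw [h3, h4, sum_add_distrib, h5]
      simp [T_zero]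
      ring
    rw [smul_sub, h1, h2]
    have h6 : ∑ x ∈ range (r + 1), (2 - T (x:ℤ) - T (-(x : ℤ))) =
        (r + 1 : ℕ) • (2 : A) - ∑ x ∈ range (r + 1), (T (x : ℤ) + T (-(x : ℤ))) := by
      have : ∀ x : ℕ, 2 - T (x:ℤ) - T (-(x : ℤ)) = 2 - (T (x : ℤ) + T (-(x : ℤ))) := fun x => by ring
      simp only [this]
      rw [sum_sub_distrib]
      simp
    rw [h6]
    have h7 : (2 * r + 1 : ℝ) • (1 : A) = (r + 1 : ℕ) • (2 : A) - 1 := by
      have e1 : (2 * r + 1 : ℝ) • (1 : A) = ((2 * r + 1 : ℕ) : A) := by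
        have := Nat.cast_smul_eq_nsmul ℝ (2 * r + 1) (1 : A)
        rw [nsmul_one] at this
        rw [← this]
        push_cast
        rfl
      rw [e1, nsmul_eq_mul]
      push_cast
      ring
    rw [h7]
    ring
  refine ⟨((2 * r + 1 : ℝ))⁻¹ • ∑ x ∈ range (r + 1), Q x, ?_, ?_⟩
  · have h1 : (2 * r + 1 : ℝ) • (1 - U r) =
        (∑ x ∈ range (r + 1), Q x) * ((1 - T 1) * (1 - T (-1))) := by
      rw [hU, Finset.sum_mul]
      exact sum_congr rfl fun x _ => (hQD x).symm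
    have h2 : 1 - U r = ((2 * r + 1 : ℝ))⁻¹ • ((2 * r + 1 : ℝ) • (1 - U r)) := by
      rw [smul_smul, inv_mul_cancel₀ (by positivity), one_smul]
    rw [h2, h1, mul_assoc, smul_mul_assoc]
  · rw [N1_smul, abs_of_pos (by positivity)]
    have h1 : N1 (∑ x ∈ range (r + 1), Q x) ≤ (r : ℝ) * (r + 1) * (2 * r + 1) / 6 := by
      refine (N1_sum_le _ _).trans ((sum_le_sum fun x _ => hQN x).trans (le_of_eq ?_))
      clear hU
      induction r with
      | zero => simp
      | succ n ih =>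
        rw [sum_range_succ, ih]
        push_cast
        ring
    calc (2 * (r:ℝ) + 1)⁻¹ * N1 _ ≤ (2 * (r:ℝ) + 1)⁻¹ * ((r : ℝ) * (r + 1) * (2 * r + 1) / 6) :=
          mul_le_mul_of_nonneg_left h1 (by positivity)
      _ = (r : ℝ) * (r + 1) / 6 := by field_simp
      _ ≤ (r : ℝ) ^ 2 / 3 := by
          rcases Nat.eq_zero_or_pos r with h | h
          · subst h; simp
          · have : (1:ℝ) ≤ r := by exact_mod_cast h
            nlinarith

/-- The basic bound: for two groups `a`, `b` of uniform measures. -/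
lemma term_bound {ι : Type*} (s t : Finset ι) (r : ι → ℕ) (k : ℕ) :
    N1 ((1 - U k) * ((∏ i ∈ s, U (r i)) * ∏ i ∈ t, U (r i))) ^ 2 *
      ((∑ i ∈ s, (r i : ℝ) ^ 2) * ∑ i ∈ t, (r i : ℝ) ^ 2) ≤ (10 * (k : ℝ) ^ 2) ^ 2 := by
  obtain ⟨w, hw, hwN⟩ := one_sub_U k
  set f := ∏ i ∈ s, U (r i) with hf
  set g := ∏ i ∈ t, U (r i) with hg
  have h1 : (1 - U k) * (f * g) = w * (((1 - T 1) * f) * ((1 - T (-1)) * g)) := by
    rw [hw]; ring
  have h2 : N1 ((1 - U k) * (f * g)) ≤ (k : ℝ) ^ 2 / 3 * ((2 * f.coeff 0) * (2 * g.coeff 0)) := by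
    rw [h1]
    refine (N1_mul_le _ _).trans ?_
    refine mul_le_mul hwN ?_ (N1_nonneg _) (by positivity)
    refine (N1_mul_le _ _).trans ?_
    rw [N1_diff', (SU_prod s r).N1_diff, (SU_prod t r).N1_diff]
  have hf0 : 0 ≤ f.coeff 0 := (SU_prod s r).nonneg 0
  have hg0 : 0 ≤ g.coeff 0 := (SU_prod t r).nonneg 0
  have h3 := prod_U_zero s r
  have h4 := prod_U_zero t r
  set V := ∑ i ∈ s, (r i : ℝ) ^ 2
  set W := ∑ i ∈ t, (r i : ℝ) ^ 2
  have hV : 0 ≤ V := sum_nonneg fun i _ => by positivity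
  have hW : 0 ≤ W := sum_nonneg fun i _ => by positivity
  have h5 : N1 ((1 - U k) * (f * g)) ^ 2 ≤
      ((k : ℝ) ^ 2 / 3 * ((2 * f.coeff 0) * (2 * g.coeff 0))) ^ 2 :=
    pow_le_pow_left₀ (N1_nonneg _) h2 2
  calc N1 ((1 - U k) * (f * g)) ^ 2 * (V * W)
      ≤ ((k : ℝ) ^ 2 / 3 * ((2 * f.coeff 0) * (2 * g.coeff 0))) ^ 2 * (V * W) :=
        mul_le_mul_of_nonneg_right h5 (by positivity)
    _ = ((k : ℝ) ^ 2 * 4 / 3) ^ 2 * ((f.coeff 0 ^ 2 * V) * (g.coeff 0 ^ 2 * W)) := by ring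
    _ ≤ ((k : ℝ) ^ 2 * 4 / 3) ^ 2 * (15 / 2 * (15 / 2)) := by
        refine mul_le_mul_of_nonneg_left ?_ (by positivity)
        exact mul_le_mul h3 h4 (by positivity) (by norm_num)
    _ = _ := by ring

end Pool.Agent.R248.Ritt
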