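import Pool.Agent.R248.Ritt.Main

/-!
Transfer of the bound for finite mixtures of uniform measures to all symmetric non-increasing
probability measures on the integers.
-/

set_option autoImplicit false

namespace Pool.Agent.R248.Ritt

open Finset Filter Topology

/-- Convolution of functions on the integers. -/
noncomputable def cv (f g : ℤ → ℝ) (k : ℤ) : ℝ := ∑' j : ℤ, f j * g (k - j)

/-- Convolution powers; the zeroth power is the unit mass at the origin. -/
noncomputable def cvPow (μ : ℤ → ℝ) : ℕ → ℤ → ℝ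
  | 0 => fun k => if k = 0 then 1 else 0
  | n + 1 => cv μ (cvPow μ n)

lemma coeff_one (k : ℤ) : (1 : A).coeff k = if k = 0 then 1 else 0 := by
  rw [AddMonoidAlgebra.one_def, AddMonoidAlgebra.coeff_single, Finsupp.single_apply]
  simp only [eq_comm]

lemma coeff_U (r : ℕ) (k : ℤ) :
    (U r).coeff k = if |k| ≤ r then ((2 * r + 1 : ℝ))⁻¹ else 0 := by
  have h := coeff_U_mul r 1 k
  rw [mul_one] at h
  rw [h]
  simp only [coeff_one]
  split_ifs with hk
  · rw [abs_le] at hk
    rw [sum_eq_single (k + r).toNat]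
    · rw [if_pos (by omega), mul_one]
    · intro b _ hb
      rw [if_neg (by omega)]
    · intro hb
      exfalso
      apply hb
      rw [Finset.mem_range]
      omega
  · rw [sum_eq_zero, mul_zero]
    intro i hi
    rw [Finset.mem_range] at hi
    rw [if_neg]
    intro h0
    apply hk
    rw [abs_le]
    omega

lemma coeff_mul (f g : A) (k : ℤ) : (f * g).coeff k = ∑' j : ℤ, f.coeff j * g.coeff (k - j) := by
  rw [tsum_eq_sum (s := f.coeff.support)]
  · have h : f * g = ∑ k ∈ f.coeff.support, AddMonoidAlgebra.single k (f.coeff k) * g := by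
      conv_lhs => rw [← AddMonoidAlgebra.sum_coeff_single f]
      rw [Finsupp.sum, Finset.sum_mul]
    rw [h, AddMonoidAlgebra.coeff_sum, Finsupp.finsetSum_apply]
    refine sum_congr rfl fun j _ => ?_
    rw [AddMonoidAlgebra.coeff_single_mul_apply]
    congr 2
    ring
  · intro j hj
    rw [Finsupp.notMem_support_iff.1 hj, zero_mul]

lemma abs_coeff_le (f : A) (k : ℤ) : |f.coeff k| ≤ N1 f := by
  have := (summ f).sum_le_tsum {k} fun _ _ => abs_nonneg _
  simpa [N1] using this

section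

variable (μ : ℤ → ℝ)

/-- The mixture weights. -/
noncomputable def pw (r : ℕ) : ℝ := (2 * r + 1) * (μ r - μ (r + 1))

/-- The truncated mixture. -/
noncomputable def mR (R : ℕ) : A := ∑ r ∈ range R, pw μ r • U r

/-- The total mass of the truncated mixture. -/
noncomputable def sR (R : ℕ) : ℝ := ∑ r ∈ range R, pw μ r

variable {μ}

lemma coeff_mR (R : ℕ) (k : ℤ) :
    (mR μ R).coeff k = if |k| < R then μ |k| - μ R else 0 := by
  induction R with
  | zero =>
    have : ¬ |k| < ((0 : ℕ) : ℤ) := by push_cast; exact not_lt.2 (abs_nonneg k)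
    rw [if_neg this]
    simp [mR]
  | succ R ih =>
    have h1 : mR μ (R + 1) = mR μ R + pw μ R • U R := by
      unfold mR
      rw [sum_range_succ]
    rw [h1, AddMonoidAlgebra.coeff_add, Finsupp.add_apply, ih, AddMonoidAlgebra.coeff_smul_apply,
      coeff_U, smul_eq_mul]
    have h0 : (2 * (R : ℝ) + 1) ≠ 0 := by positivity
    rcases lt_trichotomy |k| (R : ℤ) with h | h | h
    · rw [if_pos h, if_pos h.le, if_pos (by push_cast; omega)]
      unfold pw
      push_cast
      field_simp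
      ring
    · rw [if_neg (by omega), if_pos h.le, if_pos (by push_cast; omega)]
      unfold pw
      rw [h]
      push_cast
      field_simp
      ring
    · rw [if_neg (by omega), if_neg (by omega), if_neg (by push_cast; omega)]
      simp

variable (h0 : ∀ k, 0 ≤ μ k) (h1 : HasSum μ 1) (hs : ∀ k, μ (-k) = μ k)
  (ha : ∀ n : ℕ, μ (n + 1) ≤ μ n)

include ha in
lemma pw_nonneg (r : ℕ) : 0 ≤ pw μ r :=
  mul_nonneg (by positivity) (sub_nonneg.2 (ha r))

include ha in
lemma anti' (j k : ℕ) (h : j ≤ k) : μ k ≤ μ j := by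
  have : Antitone fun n : ℕ => μ n := antitone_nat_of_succ_le fun n => by
    push_cast
    exact ha n
  exact this h

include hs in
lemma mu_abs (k : ℤ) : μ |k| = μ k := by
  rcases abs_choice k with h | h
  · rw [h]
  · rw [h, hs]

include ha in
lemma coeff_mR_nonneg (R : ℕ) (k : ℤ) : 0 ≤ (mR μ R).coeff k := by
  rw [coeff_mR]
  split_ifs with h
  · rw [sub_nonneg]
    have h2 : |k| = ((k.natAbs : ℕ) : ℤ) := Int.abs_eq_natAbs k
    rw [h2]
    exact anti' ha _ _ (by omega)
  · exact le_rfl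

include h0 hs in
lemma coeff_mR_le (R : ℕ) (k : ℤ) : (mR μ R).coeff k ≤ μ k := by
  rw [coeff_mR, mu_abs hs]
  split_ifs with h
  · linarith [h0 R]
  · exact h0 k

include h1 hs in
lemma tendsto_coeff_mR (k : ℤ) : Tendsto (fun R : ℕ => (mR μ R).coeff k) atTop (𝓝 (μ k)) := by
  have h2 : Tendsto (fun R : ℕ => μ R) atTop (𝓝 0) :=
    (h1.summable.comp_injective (i := fun n : ℕ => (n : ℤ))
      Nat.cast_injective).tendsto_atTop_zero
  have h3 : Tendsto (fun R : ℕ => μ k - μ R) atTop (𝓝 (μ k - 0)) := tendsto_const_nhds.sub h2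
  rw [sub_zero] at h3
  refine h3.congr' ?_
  filter_upwards [eventually_gt_atTop k.natAbs] with R hR
  rw [coeff_mR, if_pos (by rw [Int.abs_eq_natAbs]; exact_mod_cast hR), mu_abs hs]

lemma tsum_T (k : ℤ) : ∑' j, (T k).coeff j = 1 := by
  unfold T
  rw [tsum_eq_single k]
  · simp
  · intro j hj
    rw [AddMonoidAlgebra.coeff_single, Finsupp.single_apply, if_neg hj.symm]

lemma tsum_add' (f g : A) : ∑' j, (f + g).coeff j = ∑' j, f.coeff j + ∑' j, g.coeff j := by
  rw [← (summ' f).tsum_add (summ' g)]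
  rfl

lemma tsum_smul' (c : ℝ) (f : A) : ∑' j, (c • f).coeff j = c * ∑' j, f.coeff j := by
  rw [← tsum_mul_left]
  rfl

lemma tsum_zero' : ∑' j, (0 : A).coeff j = 0 := by simp

lemma tsum_sum' {ι : Type*} (s : Finset ι) (f : ι → A) :
    ∑' j, (∑ i ∈ s, f i).coeff j = ∑ i ∈ s, ∑' j, (f i).coeff j := by
  classical
  induction s using Finset.induction_on with
  | empty => simp
  | insert a s ha ih => rw [sum_insert ha, sum_insert ha, tsum_add', ih]

lemma tsum_U (r : ℕ) : ∑' j, (U r).coeff j = 1 := by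
  unfold U
  rw [tsum_smul', tsum_sum']
  simp only [tsum_T]
  have h0 : (2 * (r : ℝ) + 1) ≠ 0 := by positivity
  simp
  field_simp

lemma tsum_mR (R : ℕ) : ∑' j, (mR μ R).coeff j = sR μ R := by
  unfold mR sR
  rw [tsum_sum']
  exact sum_congr rfl fun r _ => by rw [tsum_smul', tsum_U, mul_one]

include h0 h1 hs in
lemma sR_le_one (R : ℕ) : sR μ R ≤ 1 := by
  rw [← tsum_mR, ← h1.tsum_eq]
  exact (summ' _).tsum_le_tsum (coeff_mR_le h0 hs R) h1.summable

include ha in
lemma sR_nonneg (R : ℕ) : 0 ≤ sR μ R := sum_nonneg fun r _ => pw_nonneg ha r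

include h0 h1 hs ha in
lemma tendsto_sR : Tendsto (fun R : ℕ => sR μ R) atTop (𝓝 1) := by
  simp_rw [← tsum_mR]
  rw [← h1.tsum_eq]
  refine tendsto_tsum_of_dominated_convergence h1.summable (tendsto_coeff_mR h1 hs) ?_
  refine Eventually.of_forall fun R k => ?_
  rw [Real.norm_eq_abs, abs_of_nonneg (coeff_mR_nonneg ha R k)]
  exact coeff_mR_le h0 hs R k

include ha in
lemma N1_mR_le (R : ℕ) : N1 (mR μ R) ≤ sR μ R := by
  unfold mR sR
  refine (N1_sum_le _ _).trans (sum_le_sum fun r _ => ?_)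
  rw [N1_smul, abs_of_nonneg (pw_nonneg ha r)]
  exact mul_le_of_le_one_right (pw_nonneg ha r) (N1_U_le r)

include h0 h1 hs ha in
lemma N1_mR_pow_le (R n : ℕ) : N1 (mR μ R ^ n) ≤ 1 := by
  induction n with
  | zero => rw [pow_zero, N1_one]
  | succ n ih =>
    rw [pow_succ]
    refine (N1_mul_le _ _).trans ?_
    exact mul_le_one₀ ih (N1_nonneg _) ((N1_mR_le ha R).trans (sR_le_one h0 h1 hs R))

include h0 h1 hs ha in
lemma tendsto_coeff_pow (n : ℕ) (k : ℤ) :
    Tendsto (fun R : ℕ => (mR μ R ^ n).coeff k) atTop (𝓝 (cvPow μ n k)) := by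
  induction n generalizing k with
  | zero =>
    simp only [pow_zero, coeff_one, cvPow]
    exact tendsto_const_nhds
  | succ n ih =>
    simp_rw [pow_succ', coeff_mul]
    refine tendsto_tsum_of_dominated_convergence (bound := μ) h1.summable ?_ ?_
    · intro j
      exact (tendsto_coeff_mR h1 hs j).mul (ih (k - j))
    · refine Eventually.of_forall fun R j => ?_
      rw [Real.norm_eq_abs, abs_mul, abs_of_nonneg (coeff_mR_nonneg ha R j)]
      have h3 : |(mR μ R ^ n).coeff (k - j)| ≤ 1 :=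
        (abs_coeff_le _ _).trans (N1_mR_pow_le h0 h1 hs ha R n)
      calc _ ≤ μ j * 1 := mul_le_mul (coeff_mR_le h0 hs R j) h3 (abs_nonneg _) (h0 j)
        _ = μ j := mul_one _

include h0 h1 hs ha in
lemma finite_bound (n : ℕ) (hn : 1 ≤ n) (K : Finset ℤ) :
    ∑ k ∈ K, |cvPow μ n k - cvPow μ (n + 1) k| ≤ 34 / (n + 1) := by
  have hlim : Tendsto (fun R : ℕ => ∑ k ∈ K, |((sR μ R • (1 : A) - mR μ R) * mR μ R ^ n).coeff k|)
      atTop (𝓝 (∑ k ∈ K, |cvPow μ n k - cvPow μ (n + 1) k|)) := by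
    refine tendsto_finsetSum _ fun k _ => ?_
    refine Tendsto.abs ?_
    have e : ∀ R, ((sR μ R • (1 : A) - mR μ R) * mR μ R ^ n).coeff k =
        sR μ R * (mR μ R ^ n).coeff k - (mR μ R ^ (n + 1)).coeff k := by
      intro R
      rw [sub_mul, smul_mul_assoc, one_mul, ← pow_succ', AddMonoidAlgebra.coeff_sub,
        Finsupp.sub_apply, AddMonoidAlgebra.coeff_smul_apply, smul_eq_mul]
    simp_rw [e]
    have := ((tendsto_sR h0 h1 hs ha).mul (tendsto_coeff_pow h0 h1 hs ha n k)).sub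
      (tendsto_coeff_pow h0 h1 hs ha (n + 1) k)
    rwa [one_mul] at this
  refine le_of_tendsto hlim (Eventually.of_forall fun R => ?_)
  have h5 : ∑ k ∈ K, |((sR μ R • (1 : A) - mR μ R) * mR μ R ^ n).coeff k| ≤
      N1 ((sR μ R • (1 : A) - mR μ R) * mR μ R ^ n) :=
    (summ _).sum_le_tsum _ fun _ _ => abs_nonneg _
  refine h5.trans ?_
  have h6 := mixture_bound (pw μ) (pw_nonneg ha) R n hn
  have h7 : (sR μ R) ^ (n + 1) ≤ 1 := pow_le_one₀ (sR_nonneg ha R) (sR_le_one h0 h1 hs R)
  rw [le_div_iff₀ (by positivity), mul_comm]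
  calc _ ≤ 34 * (sR μ R) ^ (n + 1) := h6
    _ ≤ 34 := by linarith

include h0 h1 hs ha in
theorem ritt_bound (n : ℕ) (hn : 1 ≤ n) :
    Summable (fun k => |cvPow μ n k - cvPow μ (n + 1) k|) ∧
      (n : ℝ) * ∑' k, |cvPow μ n k - cvPow μ (n + 1) k| ≤ 34 := by
  have hb := finite_bound h0 h1 hs ha n hn
  have hsum : Summable (fun k => |cvPow μ n k - cvPow μ (n + 1) k|) :=
    summable_of_sum_le (fun _ => abs_nonneg _) hb
  refine ⟨hsum, ?_⟩
  have h2 : ∑' k, |cvPow μ n k - cvPow μ (n + 1) k| ≤ 34 / (n + 1) := hsum.tsum_le_of_sum_le hb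
  have h3 : (0:ℝ) < n + 1 := by positivity
  calc (n : ℝ) * ∑' k, |cvPow μ n k - cvPow μ (n + 1) k| ≤ n * (34 / (n + 1)) :=
        mul_le_mul_of_nonneg_left h2 (by positivity)
    _ ≤ 34 := by
      rw [mul_div_assoc', div_le_iff₀ h3]
      linarith

end

end Pool.Agent.R248.Ritt
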